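import Mathlib
import Pool.Agent.Work.MP_ce2d68_st.Interface

set_option autoImplicit false

open Polynomial Filter Topology
open scoped ComplexConjugate

namespace Pool.Agent.Work.MP_ce2d68_st.helper79

open Pool.Agent.Work.MP_ce2d68_st

lemma pr_monic {Qs : Finset ℤ[X]} (h : Fam Qs) : (pr Qs).Monic := by
  unfold pr
  exact monic_prod_of_monic _ _ (fun P hP => (h P hP).1)

lemma pr_natDegree {Qs : Finset ℤ[X]} (h : Fam Qs) : (pr Qs).natDegree = dg Qs := by
  unfold pr dg
  exact natDegree_prod_of_monic _ _ (fun P hP => (h P hP).1)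

lemma rv_add (f g : ℝ[X]) (z : ℂ) : rv (f + g) z = rv f z + rv g z := by
  simp [rv]

lemma rv_zero (z : ℂ) : rv 0 z = 0 := by simp [rv]

lemma rv_map_mul (W : ℤ[X]) (h : ℝ[X]) (z : ℂ) :
    rv (W.map (Int.castRingHom ℝ) * h) z = ev W z * rv h z := by
  unfold rv ev cp
  rw [Polynomial.map_mul, eval_mul, Polynomial.map_map]
  congr 2

theorem stmt_ETR (hDIG : Stmt_DIG) : Stmt_ETR := by
  intro K hK hKc Q1 Q2 hQ1 hQ2 hn1 hn2
  obtain ⟨c1, hc1, H1⟩ := hDIG K hK hKc Q1 hQ1 hn1
  obtain ⟨c2, hc2, H2⟩ := hDIG K hK hKc Q2 hQ2 hn2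
  refine ⟨max c1 c2, lt_max_of_lt_left hc1, ?_⟩
  intro M R T S g hR hT hTK hS hg f hf
  have hFam : ∀ s, Fam (R s) := by
    intro s
    rcases hR s with h | h <;> rw [h] <;> assumption
  have hWm : ∀ s, (∏ i ∈ Finset.range s, pr (R i)).Monic := fun s =>
    monic_prod_of_monic _ _ (fun i _ => pr_monic (hFam i))
  have hWd : ∀ s, (∏ i ∈ Finset.range s, pr (R i)).natDegree = ∑ i ∈ Finset.range s, dg (R i) := by
    intro s
    rw [natDegree_prod_of_monic _ _ (fun i _ => pr_monic (hFam i))]
    exact Finset.sum_congr rfl (fun i _ => pr_natDegree (hFam i))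
  have key : ∀ s, s ≤ M → ∃ (U : ℤ[X]) (H fs : ℝ[X]),
      U.degree < ((∑ i ∈ Finset.range s, dg (R i) : ℕ) : WithBot ℕ) ∧
      fs.degree < ((∑ i ∈ Finset.Ico s M, dg (R i) : ℕ) : WithBot ℕ) ∧
      f = 4 * U.map (Int.castRingHom ℝ) + H
        + (∏ i ∈ Finset.range s, pr (R i)).map (Int.castRingHom ℝ) * fs ∧
      ∀ z ∈ K, ‖rv H z‖ ≤ max c1 c2 * (∑ j ∈ Finset.range s, ∑ Q ∈ R j,
        Real.exp ((∑ a ∈ rts Q, S j a) / Q.natDegree)) * T z := by
    intro s
    induction s with
    | zero =>
      intro _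
      refine ⟨0, 0, f, ?_, ?_, ?_, ?_⟩
      · simp only [degree_zero]
        exact WithBot.bot_lt_coe _
      · rw [← Finset.range_eq_Ico]
        exact hf
      · simp
      · intro z hz
        simp [rv_zero]
    | succ s ih =>
      intro hs
      have hsM : s < M := hs
      obtain ⟨U, H, fs, hU, hfs, hfe, hHb⟩ := ih (by omega)
      have hstep : ∃ (u : ℤ[X]) (h f₂ : ℝ[X]), u.degree < ((dg (R s) : ℕ) : WithBot ℕ) ∧
          f₂.degree < (((∑ i ∈ Finset.Ico s M, dg (R i)) - dg (R s) : ℕ) : WithBot ℕ) ∧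
          fs = 4 * u.map (Int.castRingHom ℝ) + h + (pr (R s)).map (Int.castRingHom ℝ) * f₂ ∧
          ∀ z ∈ K, ‖ev (∏ i ∈ Finset.range s, pr (R i)) z‖ * ‖rv h z‖
            ≤ max c1 c2 * (∑ Q ∈ R s, Real.exp ((∑ a ∈ rts Q, S s a) / Q.natDegree)) * T z := by
        rcases hR s with hRs | hRs
        · obtain ⟨u, h, f₂, hu, _, hf₂, he, hb⟩ := H1 (∏ i ∈ Finset.range s, pr (R i)) T
            (∑ i ∈ Finset.Ico s M, dg (R i)) (S s) (g s) hT hTK (hS s)
            (by
              intro a ha
              have := hg s hsM a (by rw [hRs]; exact ha)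
              rw [hRs] at this
              exact this) fs hfs
          refine ⟨u, h, f₂, ?_, ?_, ?_, ?_⟩
          · rw [hRs]; exact hu
          · rw [hRs]; exact hf₂
          · rw [hRs]; exact he
          · intro z hz
            refine (hb z hz).trans ?_
            rw [hRs]
            have h0 : 0 ≤ ∑ Q ∈ Q1, Real.exp ((∑ a ∈ rts Q, S s a) / Q.natDegree) :=
              Finset.sum_nonneg (fun _ _ => (Real.exp_pos _).le)
            exact mul_le_mul_of_nonneg_right
              (mul_le_mul_of_nonneg_right (le_max_left _ _) h0) (hTK z hz)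
        · obtain ⟨u, h, f₂, hu, _, hf₂, he, hb⟩ := H2 (∏ i ∈ Finset.range s, pr (R i)) T
            (∑ i ∈ Finset.Ico s M, dg (R i)) (S s) (g s) hT hTK (hS s)
            (by
              intro a ha
              have := hg s hsM a (by rw [hRs]; exact ha)
              rw [hRs] at this
              exact this) fs hfs
          refine ⟨u, h, f₂, ?_, ?_, ?_, ?_⟩
          · rw [hRs]; exact hu
          · rw [hRs]; exact hf₂
          · rw [hRs]; exact he
          · intro z hz
            refine (hb z hz).trans ?_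
            rw [hRs]
            have h0 : 0 ≤ ∑ Q ∈ Q2, Real.exp ((∑ a ∈ rts Q, S s a) / Q.natDegree) :=
              Finset.sum_nonneg (fun _ _ => (Real.exp_pos _).le)
            exact mul_le_mul_of_nonneg_right
              (mul_le_mul_of_nonneg_right (le_max_right _ _) h0) (hTK z hz)
      obtain ⟨u, h, f₂, hu, hf₂, he, hb⟩ := hstep
      refine ⟨U + (∏ i ∈ Finset.range s, pr (R i)) * u,
        H + (∏ i ∈ Finset.range s, pr (R i)).map (Int.castRingHom ℝ) * h, f₂, ?_, ?_, ?_, ?_⟩
      · refine lt_of_le_of_lt (degree_add_le _ _) (max_lt ?_ ?_)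
        · refine lt_of_lt_of_le hU ?_
          rw [Finset.sum_range_succ]
          exact_mod_cast Nat.le_add_right _ _
        · by_cases hu0 : u = 0
          · rw [hu0, mul_zero, degree_zero]
            exact WithBot.bot_lt_coe _
          · rw [degree_mul, degree_eq_natDegree (hWm s).ne_zero, hWd s,
              degree_eq_natDegree hu0, Finset.sum_range_succ]
            rw [degree_eq_natDegree hu0] at hu
            have hu' : u.natDegree < dg (R s) := by exact_mod_cast hu
            exact_mod_cast Nat.add_lt_add_left hu' _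
      · have hsum : (∑ i ∈ Finset.Ico s M, dg (R i)) - dg (R s)
            = ∑ i ∈ Finset.Ico (s + 1) M, dg (R i) := by
          rw [Finset.sum_eq_sum_Ico_succ_bot hsM]
          omega
        rw [hsum] at hf₂
        exact hf₂
      · rw [Finset.prod_range_succ]
        simp only [Polynomial.map_add, Polynomial.map_mul]
        rw [hfe, he]
        ring
      · intro z hz
        rw [rv_add, rv_map_mul, Finset.sum_range_succ, mul_add, add_mul]
        refine (norm_add_le _ _).trans (add_le_add (hHb z hz) ?_)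
        rw [norm_mul]
        exact hb z hz
  obtain ⟨U, H, fs, hU, hfs, hfe, hHb⟩ := key M le_rfl
  have hfs0 : fs = 0 := by
    rw [Finset.Ico_self, Finset.sum_empty] at hfs
    by_contra hne
    rw [degree_eq_natDegree hne] at hfs
    have : fs.natDegree < 0 := by exact_mod_cast hfs
    omega
  refine ⟨U, H, hU, ?_, hHb⟩
  rw [hfe, hfs0, mul_zero, add_zero]

end Pool.Agent.Work.MP_ce2d68_st.helper79
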