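import Mathlib
import Pool.Agent.Work.MP_ce2d68_st.Interface

set_option autoImplicit false

open Polynomial Filter Topology
open scoped ComplexConjugate

namespace Pool.Agent.Work.MP_ce2d68_st.helper79

open Pool.Agent.Work.MP_ce2d68_st

/-- a disc of relative radius `σ ≤ sin θ` around a positive real lies in the sector -/
lemma disc_sector (θ σ b : ℝ) (hθ : 0 < θ) (hσ : 0 < σ) (hσ2 : σ ≤ 1 / 2)
    (hσs : σ ≤ Real.sin (min θ (Real.pi / 2))) (hb : 0 < b) (z : ℂ)
    (hz : ‖z - b‖ ≤ σ * b) : |z.arg| ≤ θ ∧ ‖z‖ ≤ 2 * b := by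
  have hn : ‖z‖ ≤ 2 * b := by
    have h1 : ‖z‖ ≤ ‖z - b‖ + ‖(b : ℂ)‖ := by
      have := norm_add_le (z - b) (b : ℂ)
      simpa using this
    have h2 : ‖(b : ℂ)‖ = b := by
      rw [Complex.norm_real, Real.norm_eq_abs, abs_of_pos hb]
    rw [h2] at h1
    nlinarith
  refine ⟨?_, hn⟩
  have hsq : (z.re - b) ^ 2 + z.im ^ 2 ≤ (σ * b) ^ 2 := by
    have h1 : ‖z - b‖ ^ 2 = (z.re - b) ^ 2 + z.im ^ 2 := by
      rw [Complex.sq_norm, Complex.normSq_apply]
      simp
      ring
    rw [← h1]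
    exact pow_le_pow_left₀ (norm_nonneg _) hz 2
  have hre : 0 < z.re := by
    by_contra h
    push Not at h
    have h1 : b ^ 2 ≤ (z.re - b) ^ 2 := by nlinarith
    have h2 : (σ * b) ^ 2 ≤ (1 / 2 * b) ^ 2 :=
      pow_le_pow_left₀ (by positivity) (mul_le_mul_of_nonneg_right hσ2 hb.le) 2
    nlinarith [sq_nonneg z.im, mul_pos hb hb]
  have hz0 : 0 < ‖z‖ := by
    rw [norm_pos_iff]
    intro h
    rw [h] at hre
    simp at hre
  have him : z.im ^ 2 ≤ σ ^ 2 * ‖z‖ ^ 2 := by
    rw [Complex.sq_norm, Complex.normSq_apply]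
    have h1 : (0 : ℝ) ≤ 1 - σ ^ 2 := by nlinarith
    have h2 := mul_nonneg h1 (sub_nonneg.mpr hsq)
    nlinarith [sq_nonneg (z.re - (1 - σ ^ 2) * b)]
  have habs : |z.im / ‖z‖| ≤ σ := by
    rw [abs_div, abs_of_pos hz0, div_le_iff₀ hz0]
    have : |z.im| ^ 2 ≤ (σ * ‖z‖) ^ 2 := by
      rw [sq_abs, mul_pow]
      exact him
    exact (pow_le_pow_iff_left₀ (abs_nonneg _) (by positivity) (by norm_num)).mp this
  have hpi : 0 < Real.pi := Real.pi_pos
  have hm0 : 0 < min θ (Real.pi / 2) := lt_min hθ (by positivity)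
  have hm1 : min θ (Real.pi / 2) ≤ Real.pi / 2 := min_le_right _ _
  rw [Complex.arg_of_re_nonneg hre.le]
  refine le_trans ?_ (min_le_left θ (Real.pi / 2))
  obtain ⟨ha, hb'⟩ := abs_le.mp habs
  rw [abs_le]
  constructor
  · rw [Real.le_arcsin_iff_sin_le ⟨by linarith, by linarith⟩ ⟨by linarith, by linarith⟩, Real.sin_neg]
    linarith
  · rw [Real.arcsin_le_iff_le_sin ⟨by linarith, by linarith⟩ ⟨by linarith, by linarith⟩]
    linarith

lemma ca_max_le (b R : ℝ) (hb : 1 ≤ b) (hR : 0 < R) (hRb : R ≤ b) :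
    ca (fun z => Real.log (max ‖z - b‖ R)) ≤ Real.log b + 1 / b := by
  have hb0 : 0 < b := by linarith
  have h1 : ca (fun z => Real.log (max ‖z - b‖ R)) ≤ Real.log (b + 1) := by
    unfold ca
    refine Real.circleAverage_mono_on_of_le_circle ?_ ?_
    · refine ContinuousOn.circleIntegrable zero_le_one (Continuous.continuousOn ?_)
      refine Continuous.log ?_ ?_
      · fun_prop
      · intro z
        exact (lt_of_lt_of_le hR (le_max_right _ _)).ne'
    · intro z hz
      have hz1 : ‖z‖ = 1 := by simpa using hz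
      refine Real.log_le_log (lt_of_lt_of_le hR (le_max_right _ _)) (max_le ?_ (by linarith))
      have h2 : ‖z - b‖ ≤ ‖z‖ + ‖(b : ℂ)‖ := norm_sub_le _ _
      have h3 : ‖(b : ℂ)‖ = b := by
        rw [Complex.norm_real, Real.norm_eq_abs, abs_of_pos hb0]
      rw [h3, hz1] at h2
      linarith
  refine h1.trans ?_
  have h4 : b + 1 = b * (1 + 1 / b) := by field_simp
  rw [h4, Real.log_mul hb0.ne' (by positivity)]
  have h5 := Real.log_le_sub_one_of_pos (show (0 : ℝ) < 1 + 1 / b by positivity)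
  linarith

theorem stmt_FAR : Stmt_FAR := by
  intro θ hθ hθπ
  have hpi : 0 < Real.pi := Real.pi_pos
  set σ : ℝ := min (1 / 2) (Real.sin (min θ (Real.pi / 2))) with hσdef
  have hm0 : 0 < min θ (Real.pi / 2) := lt_min hθ (by positivity)
  have hm1 : min θ (Real.pi / 2) ≤ Real.pi / 2 := min_le_right _ _
  have hsin : 0 < Real.sin (min θ (Real.pi / 2)) :=
    Real.sin_pos_of_pos_of_lt_pi hm0 (by linarith)
  have hσ : 0 < σ := lt_min (by norm_num) hsin
  have hσ2 : σ ≤ 1 / 2 := min_le_left _ _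
  have hσs : σ ≤ Real.sin (min θ (Real.pi / 2)) := min_le_right _ _
  have hlσ : 0 ≤ Real.log (1 / σ) := by
    refine Real.log_nonneg ?_
    rw [le_div_iff₀ hσ]
    linarith
  refine ⟨Real.log (1 / σ) + 3, by linarith, ?_⟩
  intro q hq
  have hq2 : (2 : ℝ) ≤ q := by exact_mod_cast hq
  -- the number `s`
  set s : ℝ := (1 / σ) ^ (q - 1) * (2 * q) with hs
  have h1σ : 1 ≤ 1 / σ := by
    rw [le_div_iff₀ hσ]
    linarith
  have hpw : 1 ≤ (1 / σ) ^ (q - 1) := one_le_pow₀ h1σ
  have hs2q : 2 * (q : ℝ) ≤ s := by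
    rw [hs]
    nlinarith
  have hs4 : 4 ≤ s := by linarith
  have hs0 : 0 < s := by linarith
  have hq1 : ((q - 1 : ℕ) : ℝ) = (q : ℝ) - 1 := by
    rw [Nat.cast_sub (by omega)]
    simp
  have hlogs : ((q : ℝ) - 1) * Real.log (1 / σ) ≤ Real.log s := by
    rw [hs, Real.log_mul (by positivity) (by positivity), Real.log_pow, hq1]
    have : 0 ≤ Real.log (2 * (q : ℝ)) := Real.log_nonneg (by linarith)
    linarith
  set b₁ : ℝ := 20 / σ with hb₁
  have hb₁40 : 40 ≤ b₁ := by
    rw [hb₁, le_div_iff₀ hσ]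
    linarith
  have hb₁0 : 0 < b₁ := by linarith
  set b₂ : ℝ := b₁ * s ^ 2 with hb₂
  have hs2 : 1 ≤ s ^ 2 := one_le_pow₀ (by linarith)
  have hb12 : b₁ ≤ b₂ := by
    rw [hb₂]
    nlinarith
  have hb₂0 : 0 < b₂ := by linarith
  have hqb₂ : (q : ℝ) ≤ b₂ := by
    have h1 : s ≤ s ^ 2 := by nlinarith
    have h2 : s ^ 2 ≤ b₂ := by
      rw [hb₂]
      nlinarith [sq_nonneg s]
    linarith
  have hσb₁ : σ * b₁ = 20 := by
    rw [hb₁]
    field_simp
  have hlogb₁ : Real.log b₁ = Real.log 20 + Real.log (1 / σ) := by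
    rw [hb₁, div_eq_mul_one_div, Real.log_mul (by norm_num) (by positivity)]
  have hlog20 : 2 ≤ Real.log 20 := by
    rw [Real.le_log_iff_exp_le (by norm_num)]
    have h1 : Real.exp 2 = Real.exp 1 ^ 2 := by
      rw [← Real.exp_nat_mul]
      norm_num
    rw [h1]
    have h2 : Real.exp 1 < 2.7182818286 := Real.exp_one_lt_d9
    have h3 : 0 < Real.exp 1 := Real.exp_pos 1
    nlinarith
  have hlogb₂ : Real.log b₂ = Real.log b₁ + 2 * Real.log s := by
    rw [hb₂, Real.log_mul hb₁0.ne' (by positivity), Real.log_pow]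
    push_cast
    ring
  have hlogs0 : 0 ≤ Real.log s := Real.log_nonneg (by linarith)
  have hlσeq : Real.log σ = -Real.log (1 / σ) := by
    rw [one_div, Real.log_inv]
    ring
  refine ⟨b₁, σ * b₁, b₂, σ * b₂,
    Real.log b₁ + ((q : ℝ) - 1) * Real.log b₂ - Real.log (1 / σ) - 1, ?_, ?_, ?_, ?_, ?_, hb12, ?_, ?_⟩
  · rw [hσb₁]
    norm_num
  · have : σ * b₁ ≤ σ * b₂ := mul_le_mul_of_nonneg_left hb12 hσ.le
    linarith
  · have h1 : 0 ≤ Real.log b₂ := Real.log_nonneg (by linarith)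
    have h2 : Real.log b₂ ≤ ((q : ℝ) - 1) * Real.log b₂ := by nlinarith
    have h3 : Real.log b₁ ≤ Real.log b₂ := by linarith
    linarith
  · intro z hz
    exact disc_sector θ σ b₁ hθ hσ hσ2 hσs hb₁0 z hz
  · intro z hz
    exact disc_sector θ σ b₂ hθ hσ hσ2 hσs hb₂0 z hz
  · intro z
    have hR1 : σ * b₁ ≤ max ‖z - b₁‖ (σ * b₁) := le_max_right _ _
    have hR2 : σ * b₂ ≤ max ‖z - b₂‖ (σ * b₂) := le_max_right _ _
    have hl1 : Real.log b₁ - Real.log (1 / σ) ≤ Real.log (max ‖z - b₁‖ (σ * b₁)) := by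
      have := Real.log_le_log (by positivity) hR1
      rw [Real.log_mul hσ.ne' hb₁0.ne', hlσeq] at this
      linarith
    have hl2 : Real.log b₂ - Real.log (1 / σ) ≤ Real.log (max ‖z - b₂‖ (σ * b₂)) := by
      have := Real.log_le_log (by positivity) hR2
      rw [Real.log_mul hσ.ne' hb₂0.ne', hlσeq] at this
      linarith
    rcases le_or_gt ‖z‖ (b₁ * s) with hz | hz
    · -- near
      have h1 : b₂ * (1 - 1 / s) ≤ max ‖z - b₂‖ (σ * b₂) := by
        refine le_trans ?_ (le_max_left _ _)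
        have h2 : ‖(b₂ : ℂ)‖ - ‖z‖ ≤ ‖z - b₂‖ := by
          rw [norm_sub_rev]
          exact norm_sub_norm_le _ _
        have h3 : ‖(b₂ : ℂ)‖ = b₂ := by
          rw [Complex.norm_real, Real.norm_eq_abs, abs_of_pos hb₂0]
        rw [h3] at h2
        have h4 : b₂ * (1 - 1 / s) = b₂ - b₁ * s := by
          rw [hb₂]
          field_simp
        rw [h4]
        linarith
      have h5 : 0 < 1 - 1 / s := by
        have : 1 / s < 1 := by
          rw [div_lt_one hs0]
          linarith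
        linarith
      have h6 : Real.log b₂ + Real.log (1 - 1 / s) ≤ Real.log (max ‖z - b₂‖ (σ * b₂)) := by
        rw [← Real.log_mul hb₂0.ne' h5.ne']
        exact Real.log_le_log (by positivity) h1
      have h7 : -(1 / (s - 1)) ≤ Real.log (1 - 1 / s) := by
        have h8 := Real.one_sub_inv_le_log_of_pos h5
        have h9 : 1 - (1 - 1 / s)⁻¹ = -(1 / (s - 1)) := by
          have : s - 1 ≠ 0 := by linarith
          field_simp
          ring
        linarith
      have h10 : ((q : ℝ) - 1) * (1 / (s - 1)) ≤ 1 := by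
        rw [mul_one_div, div_le_one (by linarith)]
        linarith
      have h11 : ((q : ℝ) - 1) * (Real.log b₂ - 1 / (s - 1))
          ≤ ((q : ℝ) - 1) * Real.log (max ‖z - b₂‖ (σ * b₂)) :=
        mul_le_mul_of_nonneg_left (by linarith) (by linarith)
      nlinarith
    · -- far
      have h1 : b₁ * (s / 2) ≤ max ‖z - b₁‖ (σ * b₁) := by
        refine le_trans ?_ (le_max_left _ _)
        have h2 : ‖z‖ - ‖(b₁ : ℂ)‖ ≤ ‖z - b₁‖ := norm_sub_norm_le _ _
        have h3 : ‖(b₁ : ℂ)‖ = b₁ := by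
          rw [Complex.norm_real, Real.norm_eq_abs, abs_of_pos hb₁0]
        rw [h3] at h2
        nlinarith
      have h6 : Real.log b₁ + (Real.log s - Real.log 2) ≤ Real.log (max ‖z - b₁‖ (σ * b₁)) := by
        rw [← Real.log_div hs0.ne' (by norm_num), ← Real.log_mul hb₁0.ne' (by positivity)]
        exact Real.log_le_log (by positivity) h1
      have h7 : Real.log 2 ≤ 1 := by
        have := Real.log_two_lt_d9
        linarith
      have h11 : ((q : ℝ) - 1) * (Real.log b₂ - Real.log (1 / σ))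
          ≤ ((q : ℝ) - 1) * Real.log (max ‖z - b₂‖ (σ * b₂)) :=
        mul_le_mul_of_nonneg_left (by linarith) (by linarith)
      nlinarith
  · have h1 := ca_max_le b₁ (σ * b₁) (by linarith) (by positivity) (by nlinarith)
    have h2 := ca_max_le b₂ (σ * b₂) (by linarith) (by positivity) (by nlinarith)
    have h3 : ((q : ℝ) - 1) * ca (fun z => Real.log (max ‖z - b₂‖ (σ * b₂)))
        ≤ ((q : ℝ) - 1) * (Real.log b₂ + 1 / b₂) :=
      mul_le_mul_of_nonneg_left h2 (by linarith)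
    have h4 : 1 / b₁ ≤ 1 := by
      rw [div_le_one hb₁0]
      linarith
    have h5 : ((q : ℝ) - 1) * (1 / b₂) ≤ 1 := by
      rw [mul_one_div, div_le_one hb₂0]
      linarith
    nlinarith

end Pool.Agent.Work.MP_ce2d68_st.helper79
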